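import Mathlib
import Pool.Agent.R456.Rogers

/-!
# The densities of the iterated remainder sets do not converge

For every `j ≥ 2` the quotient `s_j(n)/n` has no limit.
-/

namespace Pool.Agent.Results.MP_376bf0_nt.NoLimit

open Finset Filter Topology

/-- The iterated remainder sets. -/
def S (n : ℕ) : ℕ → Finset ℕ
  | 0 => Finset.Icc 1 (n / 2)
  | j + 1 => ((S n j).erase 0).image (fun k => n % k)

/-- Decreasing lists with largest element at most `Q` and smallest element at least `2`
(for the empty list: `1 ≤ Q`). -/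
def Chain : ℕ → List ℕ → Prop
  | Q, [] => 1 ≤ Q
  | Q, q :: l => 1 ≤ q ∧ q ≤ Q ∧ Chain (q - 1) l

/-- The coefficient of `n`. -/
def coef : List ℕ → ℤ
  | [] => 0
  | q :: l => 1 - q * coef l

/-- The reachability predicate in block `Q`. -/
def Reach (j Q : ℕ) (v x : ℤ) : Prop :=
  ∃ l : List ℕ, l.length = j ∧ Chain Q l ∧ (l.prod : ℤ) ∣ x - coef l * v

theorem chain_one_le {Q : ℕ} {l : List ℕ} (h : Chain Q l) : 1 ≤ Q := by
  cases l with
  | nil => exact h
  | cons q l => exact h.1.trans h.2.1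

theorem mem_S_of_reach (n : ℕ) : ∀ (j Q r : ℕ), 1 ≤ r → (Q + 1) * r < n →
    Reach j Q n r → r ∈ S n j := by
  intro j
  induction j with
  | zero =>
    intro Q r hr hlt hR
    obtain ⟨l, hl, hc, _⟩ := hR
    have hQ := chain_one_le hc
    simp only [S, Finset.mem_Icc]
    refine ⟨hr, ?_⟩
    have : 2 * r ≤ (Q + 1) * r := Nat.mul_le_mul_right r (by omega)
    omega
  | succ j ih =>
    intro Q r hr hlt hR
    obtain ⟨l, hl, hc, hd⟩ := hR
    cases l with
    | nil => simp at hl
    | cons q l =>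
      obtain ⟨hq1, hqQ, hc'⟩ := hc
      have hqr : (q + 1) * r < n := lt_of_le_of_lt (Nat.mul_le_mul_right r (by omega)) hlt
      have hrn : r < n := by nlinarith
      -- q divides n - r
      have hdq : (q : ℤ) ∣ (n : ℤ) - r := by
        have h1 : (q : ℤ) ∣ ((q :: l).prod : ℤ) := by
          rw [List.prod_cons]
          push_cast
          exact dvd_mul_right _ _
        have h2 := h1.trans hd
        have h3 : (q : ℤ) ∣ (q : ℤ) * (coef l * n) := dvd_mul_right _ _
        have h4 := Int.dvd_sub h3 h2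
        have e : (q : ℤ) * (coef l * n) - ((r : ℤ) - coef (q :: l) * n) = (n : ℤ) - r := by
          simp only [coef]
          ring
        rwa [e] at h4
      obtain ⟨k, hk⟩ : ∃ k : ℕ, n = q * k + r := by
        have : q ∣ n - r := by
          have h5 : ((n - r : ℕ) : ℤ) = (n : ℤ) - r := by
            rw [Nat.cast_sub hrn.le]
          rw [← h5] at hdq
          exact_mod_cast hdq
        obtain ⟨k, hk⟩ := this
        exact ⟨k, by omega⟩
      have hrk : r < k := by
        by_contra hcon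
        push Not at hcon
        have : q * k ≤ q * r := Nat.mul_le_mul_left q hcon
        have e : (q + 1) * r = q * r + r := by ring
        omega
      have hk1 : 1 ≤ k := by omega
      have hmod : n % k = r := by
        rw [hk, Nat.mul_add_mod_self_right, Nat.mod_eq_of_lt hrk]
      have hmem : k ∈ S n j := by
        apply ih (q - 1) k hk1
        · rw [Nat.sub_add_cancel hq1]
          omega
        · refine ⟨l, by simpa using hl, hc', ?_⟩
          have hd' : (q : ℤ) * (l.prod : ℤ) ∣ (q : ℤ) * ((k : ℤ) - coef l * n) := by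
            rw [List.prod_cons, Nat.cast_mul] at hd
            have e : (q : ℤ) * ((k : ℤ) - coef l * n) = -((r : ℤ) - coef (q :: l) * n) := by
              simp only [coef]
              have hkz : (n : ℤ) = q * k + r := by exact_mod_cast hk
              have : (q : ℤ) * k = n - r := by rw [hkz]; ring
              calc (q : ℤ) * ((k : ℤ) - coef l * n) = q * k - q * (coef l * n) := by ring
                _ = (n - r) - q * (coef l * n) := by rw [this]
                _ = _ := by ring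
            rw [e]
            exact (dvd_neg).mpr hd
          have hq0 : (q : ℤ) ≠ 0 := by exact_mod_cast (by omega : q ≠ 0)
          exact (mul_dvd_mul_iff_left hq0).mp hd'
      simp only [S, Finset.mem_image, Finset.mem_erase]
      exact ⟨k, ⟨by omega, hmem⟩, hmod⟩

theorem reach_of_mem_S (n : ℕ) : ∀ (j Q r : ℕ), 1 ≤ r → n < (Q + 2) * r →
    r ∈ S n j → Reach j Q n r := by
  intro j
  induction j with
  | zero =>
    intro Q r hr hlt hmem
    simp only [S, Finset.mem_Icc] at hmem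
    refine ⟨[], rfl, ?_, by simp⟩
    show 1 ≤ Q
    by_contra hQ
    have hQ0 : Q = 0 := by omega
    subst hQ0
    omega
  | succ j ih =>
    intro Q r hr hlt hmem
    simp only [S, Finset.mem_image, Finset.mem_erase] at hmem
    obtain ⟨k, ⟨hk0, hk⟩, hmod⟩ := hmem
    have hk1 : 0 < k := by omega
    have hrk : r < k := by
      rw [← hmod]
      exact Nat.mod_lt _ hk1
    have hdiv := Nat.div_add_mod n k
    rw [hmod] at hdiv
    set q := n / k with hq
    have hlt2 : n < ((q - 1) + 2) * k := by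
      rcases Nat.eq_zero_or_pos q with h0 | hpos
      · rw [h0]
        rw [h0] at hdiv
        simp only [mul_zero, zero_add] at hdiv
        omega
      · have e : (q - 1) + 2 = q + 1 := by omega
        rw [e]
        have e2 : (q + 1) * k = k * q + k := by ring
        omega
    obtain ⟨l, hl, hc, hd⟩ := ih (q - 1) k hk1 hlt2 hk
    have hq2 : 1 ≤ q - 1 := chain_one_le hc
    have hqQ : q ≤ Q := by
      by_contra hcon
      push Not at hcon
      have h1 : k * q ≥ (r + 1) * q := Nat.mul_le_mul_right q hrk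
      have h2 : (Q + 2) * r ≤ (q + 1) * r := Nat.mul_le_mul_right r (by omega)
      have e : (q + 1) * r = r * q + r := by ring
      have e2 : (r + 1) * q = r * q + q := by ring
      omega
    refine ⟨q :: l, by simp [hl], ⟨by omega, hqQ, hc⟩, ?_⟩
    rw [List.prod_cons, Nat.cast_mul]
    have e : (r : ℤ) - coef (q :: l) * n = -((q : ℤ) * ((k : ℤ) - coef l * n)) := by
      simp only [coef]
      have hkz : (n : ℤ) = k * q + r := by exact_mod_cast hdiv.symm
      have : (q : ℤ) * k = n - r := by rw [hkz]; ring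
      calc (r : ℤ) - (1 - q * coef l) * n = -((n - r) - q * (coef l * n)) := by ring
        _ = -(q * k - q * (coef l * n)) := by rw [this]
        _ = _ := by ring
    rw [e]
    have h5 := mul_dvd_mul_left (q : ℤ) hd
    exact (dvd_neg).mpr h5

theorem mem_S_le (n : ℕ) : ∀ j r, r ∈ S n j → r ≤ n := by
  intro j
  cases j with
  | zero =>
    intro r hr
    simp only [S, Finset.mem_Icc] at hr
    omega
  | succ j =>
    intro r hr
    simp only [S, Finset.mem_image, Finset.mem_erase] at hr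
    obtain ⟨k, _, rfl⟩ := hr
    exact Nat.mod_le _ _

/-! ### Chains -/

theorem prod_dvd_factorial : ∀ (l : List ℕ) (Q : ℕ), Chain Q l → l.prod ∣ Q.factorial := by
  intro l
  induction l with
  | nil =>
    intro Q _
    simp
  | cons q l ih =>
    intro Q h
    obtain ⟨h1, h2, h3⟩ := h
    have h4 := ih _ h3
    have h5 : q * (q - 1).factorial = q.factorial := Nat.mul_factorial_pred (by omega)
    rw [List.prod_cons]
    calc q * l.prod ∣ q * (q - 1).factorial := Nat.mul_dvd_mul_left q h4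
      _ ∣ Q.factorial := by rw [h5]; exact Nat.factorial_dvd_factorial h2

/-- The list `[a + j, a + j - 1, …, a + 1]`. -/
def interval (a : ℕ) : ℕ → List ℕ
  | 0 => []
  | j + 1 => (a + j + 1) :: interval a j

theorem interval_length (a j : ℕ) : (interval a j).length = j := by
  induction j with
  | zero => rfl
  | succ j ih => simp [interval, ih]

theorem interval_chain (a : ℕ) (ha : 1 ≤ a) (j : ℕ) : Chain (a + j) (interval a j) := by
  induction j with
  | zero => simpa [interval, Chain] using ha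
  | succ j ih =>
    refine ⟨by omega, by omega, ?_⟩
    have e : a + j + 1 - 1 = a + j := by omega
    rw [e]
    exact ih

theorem chain_mono {Q Q' : ℕ} (h : Q ≤ Q') {l : List ℕ} (hc : Chain Q l) : Chain Q' l := by
  cases l with
  | nil => exact le_trans (show 1 ≤ Q from hc) h
  | cons q l => exact ⟨hc.1, hc.2.1.trans h, hc.2.2⟩

/-- The parity of the coefficient of a nonempty list starting with an even number. -/
theorem coef_odd_of_even (q : ℕ) (l : List ℕ) (h : Even q) : ¬ (2 : ℤ) ∣ coef (q :: l) := by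
  simp only [coef]
  obtain ⟨t, rfl⟩ := h
  rintro ⟨c, hc⟩
  have : (1 : ℤ) = 2 * (c + t * coef l) := by
    push_cast at hc
    linarith
  omega

theorem coef_even_of_odd (q : ℕ) (l : List ℕ) (h : Odd q) (h2 : ¬ (2 : ℤ) ∣ coef l) :
    (2 : ℤ) ∣ coef (q :: l) := by
  simp only [coef]
  obtain ⟨t, rfl⟩ := h
  have h3 : coef l % 2 = 1 := by omega
  obtain ⟨c, hc⟩ : ∃ c, coef l = 2 * c + 1 := ⟨coef l / 2, by omega⟩
  rw [hc]
  push_cast
  refine ⟨-(2 * t * c + t + c), ?_⟩
  ring

/-- The parities of the coefficients of intervals. -/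
theorem coef_interval_odd (a j : ℕ) (h : Even (a + j + 1)) :
    ¬ (2 : ℤ) ∣ coef (interval a (j + 1)) := coef_odd_of_even _ _ h

theorem coef_interval_even (a j : ℕ) (h : Odd (a + j + 2)) :
    (2 : ℤ) ∣ coef (interval a (j + 2)) := by
  have e : interval a (j + 2) = (a + (j + 1) + 1) :: interval a (j + 1) := rfl
  rw [e]
  apply coef_even_of_odd
  · have e2 : a + (j + 1) + 1 = a + j + 2 := by ring
    rw [e2]
    exact h
  · apply coef_interval_odd
    have e2 : a + j + 2 = (a + j + 1) + 1 := by ring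
    rw [e2] at h
    have := Nat.odd_add_one.mp h
    exact Nat.not_odd_iff_even.mp this

/-- A chain with odd product is long-legged. -/
theorem odd_prod_bound : ∀ (l : List ℕ) (Q : ℕ), Chain Q l → Odd l.prod →
    2 * l.length + 1 ≤ Q := by
  intro l
  induction l with
  | nil =>
    intro Q h _
    have : 1 ≤ Q := h
    simpa using this
  | cons q l ih =>
    intro Q h hodd
    obtain ⟨h1, h2, h3⟩ := h
    rw [List.prod_cons, Nat.odd_mul] at hodd
    have h4 := ih _ h3 hodd.2
    simp only [List.length_cons]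
    obtain ⟨t, ht⟩ := hodd.1
    omega

/-! ### Counting reachable residues in a full period -/

open Classical in
/-- The number of residues in a full period satisfying the reachability predicate. -/
noncomputable def u (j Q : ℕ) (v : ℤ) : ℕ :=
  ((range Q.factorial).filter (fun x : ℕ => Reach j Q v x)).card

theorem u_zero_le_one (j Q : ℕ) : u j Q 0 ≤ u j Q 1 := by
  classical
  have h := Pool.Agent.R456.rogers Q.factorial (List ℕ)
    {l | l.length = j ∧ Chain Q l} (fun l => l.prod) (fun l => coef l)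
    (fun l hl => prod_dvd_factorial l Q hl.2)
  have e1 : u j Q 0 = ((range Q.factorial).filter (fun x : ℕ =>
      ∃ l ∈ {l : List ℕ | l.length = j ∧ Chain Q l}, (l.prod : ℤ) ∣ (x : ℤ))).card := by
    unfold u
    congr 1
    apply Finset.filter_congr
    intro x _
    constructor
    · rintro ⟨l, h1, h2, h3⟩
      exact ⟨l, ⟨h1, h2⟩, by simpa using h3⟩
    · rintro ⟨l, ⟨h1, h2⟩, h3⟩
      exact ⟨l, h1, h2, by simpa using h3⟩
  have e2 : u j Q 1 = ((range Q.factorial).filter (fun x : ℕ =>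
      ∃ l ∈ {l : List ℕ | l.length = j ∧ Chain Q l}, (l.prod : ℤ) ∣ (x : ℤ) - coef l)).card := by
    unfold u
    congr 1
    apply Finset.filter_congr
    intro x _
    constructor
    · rintro ⟨l, h1, h2, h3⟩
      exact ⟨l, ⟨h1, h2⟩, by simpa using h3⟩
    · rintro ⟨l, ⟨h1, h2⟩, h3⟩
      exact ⟨l, h1, h2, by simpa using h3⟩
  rw [e1, e2]
  exact h

/-- Strict inequality in the block `Q = j + 2`. -/
theorem u_strict (j : ℕ) (hj : 2 ≤ j) : u j (j + 2) 0 + 1 ≤ u j (j + 2) 1 := by
  classical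
  set Q := j + 2 with hQ
  set A : Set (List ℕ) := {l | (l.length = j ∧ Chain Q l) ∧ (2 : ℤ) ∣ coef l} with hA
  set B : Set (List ℕ) := {l | (l.length = j ∧ Chain Q l) ∧ ¬ (2 : ℤ) ∣ coef l} with hB
  have hAr := Pool.Agent.R456.rogers Q.factorial (List ℕ) A (fun l => l.prod) (fun l => coef l)
    (fun l hl => prod_dvd_factorial l Q hl.1.2)
  have hBr := Pool.Agent.R456.rogers Q.factorial (List ℕ) B (fun l => l.prod) (fun l => coef l)
    (fun l hl => prod_dvd_factorial l Q hl.1.2)
  -- all products are even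
  have heven : ∀ l : List ℕ, l.length = j → Chain Q l → (2 : ℤ) ∣ (l.prod : ℤ) := by
    intro l h1 h2
    by_contra hodd
    have h3 : Odd l.prod := by
      rw [← Nat.not_even_iff_odd]
      intro he
      apply hodd
      exact_mod_cast he.two_dvd
    have := odd_prod_bound l Q h2 h3
    omega
  -- both classes are nonempty
  have hAB : A.Nonempty ∧ B.Nonempty := by
    obtain ⟨i, rfl⟩ : ∃ i, j = i + 2 := ⟨j - 2, by omega⟩
    have m1 : (interval 1 (i + 2)).length = i + 2 ∧ Chain Q (interval 1 (i + 2)) :=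
      ⟨interval_length _ _, chain_mono (by omega) (interval_chain 1 (by norm_num) (i + 2))⟩
    have m2 : (interval 2 (i + 2)).length = i + 2 ∧ Chain Q (interval 2 (i + 2)) :=
      ⟨interval_length _ _, chain_mono (by omega) (interval_chain 2 (by norm_num) (i + 2))⟩
    rcases Nat.even_or_odd i with he | ho
    · -- `i` even
      refine ⟨⟨interval 1 (i + 2), m1, ?_⟩, ⟨interval 2 (i + 2), m2, ?_⟩⟩
      · apply coef_interval_even
        obtain ⟨t, rfl⟩ := he
        exact ⟨t + 1, by ring⟩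
      · apply coef_interval_odd 2 (i + 1)
        obtain ⟨t, rfl⟩ := he
        exact ⟨t + 2, by ring⟩
    · refine ⟨⟨interval 2 (i + 2), m2, ?_⟩, ⟨interval 1 (i + 2), m1, ?_⟩⟩
      · apply coef_interval_even
        obtain ⟨t, rfl⟩ := ho
        exact ⟨t + 2, by ring⟩
      · apply coef_interval_odd 1 (i + 1)
        obtain ⟨t, rfl⟩ := ho
        exact ⟨t + 2, by ring⟩
  -- names for the four sets
  set A0 := (range Q.factorial).filter (fun x : ℕ => ∃ l ∈ A, (l.prod : ℤ) ∣ (x : ℤ)) with hA0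
  set B0 := (range Q.factorial).filter (fun x : ℕ => ∃ l ∈ B, (l.prod : ℤ) ∣ (x : ℤ)) with hB0
  set A1 := (range Q.factorial).filter
    (fun x : ℕ => ∃ l ∈ A, (l.prod : ℤ) ∣ (x : ℤ) - coef l) with hA1
  set B1 := (range Q.factorial).filter
    (fun x : ℕ => ∃ l ∈ B, (l.prod : ℤ) ∣ (x : ℤ) - coef l) with hB1
  have e0 : u j Q 0 = (A0 ∪ B0).card := by
    unfold u
    congr 1
    ext x
    simp only [hA0, hB0, Finset.mem_union, Finset.mem_filter]
    constructor
    · rintro ⟨hx, l, h1, h2, h3⟩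
      by_cases hc : (2 : ℤ) ∣ coef l
      · exact Or.inl ⟨hx, l, ⟨⟨h1, h2⟩, hc⟩, by simpa using h3⟩
      · exact Or.inr ⟨hx, l, ⟨⟨h1, h2⟩, hc⟩, by simpa using h3⟩
    · rintro (⟨hx, l, ⟨⟨h1, h2⟩, _⟩, h3⟩ | ⟨hx, l, ⟨⟨h1, h2⟩, _⟩, h3⟩)
      · exact ⟨hx, l, h1, h2, by simpa using h3⟩
      · exact ⟨hx, l, h1, h2, by simpa using h3⟩
  have e1 : u j Q 1 = (A1 ∪ B1).card := by
    unfold u
    congr 1
    ext x
    simp only [hA1, hB1, Finset.mem_union, Finset.mem_filter]
    constructor
    · rintro ⟨hx, l, h1, h2, h3⟩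
      by_cases hc : (2 : ℤ) ∣ coef l
      · exact Or.inl ⟨hx, l, ⟨⟨h1, h2⟩, hc⟩, by simpa using h3⟩
      · exact Or.inr ⟨hx, l, ⟨⟨h1, h2⟩, hc⟩, by simpa using h3⟩
    · rintro (⟨hx, l, ⟨⟨h1, h2⟩, _⟩, h3⟩ | ⟨hx, l, ⟨⟨h1, h2⟩, _⟩, h3⟩)
      · exact ⟨hx, l, h1, h2, by simpa using h3⟩
      · exact ⟨hx, l, h1, h2, by simpa using h3⟩
  have hdisj : Disjoint A1 B1 := by
    rw [Finset.disjoint_left]
    intro x hx1 hx2
    simp only [hA1, hB1, Finset.mem_filter] at hx1 hx2
    obtain ⟨_, l, ⟨⟨h1, h2⟩, h3⟩, h4⟩ := hx1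
    obtain ⟨_, l', ⟨⟨h1', h2'⟩, h3'⟩, h4'⟩ := hx2
    have h5 := (heven l h1 h2).trans h4
    have h6 := (heven l' h1' h2').trans h4'
    omega
  have hpos : 0 < Q.factorial := Nat.factorial_pos _
  have hzero : 0 ∈ A0 ∩ B0 := by
    obtain ⟨⟨l, hl⟩, ⟨l', hl'⟩⟩ := hAB
    simp only [hA0, hB0, Finset.mem_inter, Finset.mem_filter, Finset.mem_range]
    exact ⟨⟨hpos, l, hl, by simp⟩, ⟨hpos, l', hl', by simp⟩⟩
  have hcard0 : (A0 ∪ B0).card + (A0 ∩ B0).card = A0.card + B0.card :=
    Finset.card_union_add_card_inter _ _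
  have hcard1 : (A1 ∪ B1).card = A1.card + B1.card := Finset.card_union_of_disjoint hdisj
  have hint : 1 ≤ (A0 ∩ B0).card := Finset.card_pos.mpr ⟨0, hzero⟩
  have hA' : A0.card ≤ A1.card := hAr
  have hB' : B0.card ≤ B1.card := hBr
  rw [e0, e1, hcard1]
  omega

/-- The reachability predicate is periodic. -/
theorem reach_periodic (j Q : ℕ) (v x x' : ℤ) (h : (Q.factorial : ℤ) ∣ x' - x)
    (hR : Reach j Q v x) : Reach j Q v x' := by
  obtain ⟨l, h1, h2, h3⟩ := hR
  refine ⟨l, h1, h2, ?_⟩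
  have h4 : (l.prod : ℤ) ∣ x' - x :=
    (Int.natCast_dvd_natCast.mpr (prod_dvd_factorial l Q h2)).trans h
  have h5 := Int.dvd_add h3 h4
  have e : x - coef l * v + (x' - x) = x' - coef l * v := by ring
  rwa [e] at h5

/-- The reachability predicate depends on `v` modulo `Q!` only. -/
theorem reach_congr (j Q : ℕ) (v v' x : ℤ) (h : (Q.factorial : ℤ) ∣ v' - v)
    (hR : Reach j Q v x) : Reach j Q v' x := by
  obtain ⟨l, h1, h2, h3⟩ := hR
  refine ⟨l, h1, h2, ?_⟩
  have h4 : (l.prod : ℤ) ∣ v' - v :=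
    (Int.natCast_dvd_natCast.mpr (prod_dvd_factorial l Q h2)).trans h
  have h5 : (l.prod : ℤ) ∣ coef l * (v' - v) := h4.mul_left _
  have h6 := Int.dvd_sub h3 h5
  have e : x - coef l * v - coef l * (v' - v) = x - coef l * v' := by ring
  rwa [e] at h6

/-! ### Counting in intervals -/

open Classical in
theorem count_mul (p : ℕ → Prop) (a : ℕ) (hp : Function.Periodic p a) (N t : ℕ) :
    ((Ico N (N + a * t)).filter p).card = ((range a).filter p).card * t := by
  induction t with
  | zero => simp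
  | succ t ih =>
    have h1 : Ico N (N + a * (t + 1)) = Ico N (N + a * t) ∪ Ico (N + a * t) (N + a * t + a) := by
      rw [Finset.Ico_union_Ico_eq_Ico (by omega) (by omega)]
      congr 1
      ring
    have hdis : Disjoint (Ico N (N + a * t)) (Ico (N + a * t) (N + a * t + a)) :=
      Finset.Ico_disjoint_Ico_consecutive _ _ _
    rw [h1, Finset.filter_union, Finset.card_union_of_disjoint
      (Finset.disjoint_filter_filter hdis), ih]
    have h2 := Nat.filter_Ico_card_eq_of_periodic (N + a * t) a p hp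
    have h3 := Nat.filter_Ico_card_eq_of_periodic 0 a p hp
    rw [h2, ← h3, Finset.range_eq_Ico, zero_add]
    ring

open Classical in
theorem count_bounds (p : ℕ → Prop) (a : ℕ) (ha : 0 < a) (hp : Function.Periodic p a)
    (N L : ℕ) :
    ((range a).filter p).card * (L / a) ≤ ((Ico N (N + L)).filter p).card ∧
    ((Ico N (N + L)).filter p).card ≤ ((range a).filter p).card * (L / a + 1) := by
  constructor
  · rw [← count_mul p a hp N (L / a)]
    apply Finset.card_le_card
    apply Finset.filter_subset_filter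
    apply Finset.Ico_subset_Ico_right
    have := Nat.mul_div_le L a
    omega
  · rw [← count_mul p a hp N (L / a + 1)]
    apply Finset.card_le_card
    apply Finset.filter_subset_filter
    apply Finset.Ico_subset_Ico_right
    have := Nat.lt_mul_div_succ L ha
    omega

/-- The block `Q`: all `r` with `(Q+1) r < n < (Q+2) r`. -/
def block (n Q : ℕ) : Finset ℕ := Ico (n / (Q + 2) + 1) ((n - 1) / (Q + 1) + 1)

theorem mem_block (n Q r : ℕ) (hn : 1 ≤ n) :
    r ∈ block n Q ↔ (Q + 1) * r < n ∧ n < (Q + 2) * r := by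
  unfold block
  rw [Finset.mem_Ico]
  have h1 : n / (Q + 2) < r ↔ n < r * (Q + 2) := Nat.div_lt_iff_lt_mul (by omega)
  have h2 : r ≤ (n - 1) / (Q + 1) ↔ r * (Q + 1) ≤ n - 1 := Nat.le_div_iff_mul_le (by omega)
  constructor
  · rintro ⟨h3, h4⟩
    have h5 := h1.mp (by omega)
    have h6 := h2.mp (by omega)
    constructor
    · rw [Nat.mul_comm]; omega
    · rw [Nat.mul_comm]; omega
  · rintro ⟨h3, h4⟩
    have h5 := h1.mpr (by rw [Nat.mul_comm]; omega)
    have h6 := h2.mpr (by rw [Nat.mul_comm]; omega)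
    omega

open Classical in
/-- The elements of the block `Q` satisfying the reachability predicate. -/
noncomputable def good (j n Q : ℕ) : Finset ℕ := (block n Q).filter (fun r : ℕ => Reach j Q n r)

theorem good_card (j n Q : ℕ) (v : ℤ) (hn : 1 ≤ n) (hv : (Q.factorial : ℤ) ∣ v - n) :
    (n : ℝ) * ((u j Q v : ℝ) / (Q.factorial * ((Q + 1) * (Q + 2)))) - 2 * Q.factorial ≤
      ((good j n Q).card : ℝ) ∧
    ((good j n Q).card : ℝ) ≤
      (n : ℝ) * ((u j Q v : ℝ) / (Q.factorial * ((Q + 1) * (Q + 2)))) + 2 * Q.factorial := by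
  classical
  set a := Q.factorial with ha
  have hapos : 0 < a := Nat.factorial_pos _
  set p : ℕ → Prop := fun x : ℕ => Reach j Q v x with hp
  have hper : Function.Periodic p a := by
    intro x
    simp only [hp, eq_iff_iff]
    constructor
    · exact reach_periodic j Q v _ _ ⟨-1, by push_cast; ring⟩
    · exact reach_periodic j Q v _ _ ⟨1, by push_cast; ring⟩
  have hgood : good j n Q = (block n Q).filter p := by
    unfold good
    apply Finset.filter_congr
    intro x _
    constructor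
    · exact reach_congr j Q _ _ _ hv
    · refine reach_congr j Q _ _ _ ?_
      have := hv
      rw [← dvd_neg] at this
      have e : -(v - (n : ℤ)) = (n : ℤ) - v := by ring
      rwa [e] at this
  set c := u j Q v with hc
  have hcu : c = ((range a).filter p).card := rfl
  have hca : c ≤ a := by
    rw [hcu]
    exact (Finset.card_filter_le _ _).trans (by simp)
  set L := (n - 1) / (Q + 1) - n / (Q + 2) with hL
  have hblock : block n Q = Ico (n / (Q + 2) + 1) (n / (Q + 2) + 1 + L) := by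
    unfold block
    rcases le_total (n / (Q + 2)) ((n - 1) / (Q + 1)) with h | h
    · congr 1
      omega
    · have hL0 : L = 0 := by omega
      rw [hL0, Finset.Ico_eq_empty (by omega), Finset.Ico_eq_empty (by omega)]
  have hb := count_bounds p a hapos hper (n / (Q + 2) + 1) L
  rw [← hblock, ← hgood, ← hcu] at hb
  -- real estimates
  have hQ1 : (0 : ℝ) < (Q : ℝ) + 1 := by positivity
  have hQ2 : (0 : ℝ) < (Q : ℝ) + 2 := by positivity
  have haR : (1 : ℝ) ≤ (a : ℝ) := by exact_mod_cast hapos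
  have hcR : (0 : ℝ) ≤ (c : ℝ) := by positivity
  have hcaR : (c : ℝ) ≤ (a : ℝ) := by exact_mod_cast hca
  have hfr1 : ((n - 1) / (Q + 1) : ℕ) ≤ (n : ℝ) / (Q + 1) := by
    refine (Nat.cast_div_le).trans ?_
    push_cast
    apply div_le_div_of_nonneg_right _ hQ1.le
    have : ((n - 1 : ℕ) : ℝ) ≤ (n : ℝ) := by exact_mod_cast Nat.sub_le _ _
    exact this
  have hfr2 : (n : ℝ) / (Q + 1) - 1 ≤ ((n - 1) / (Q + 1) : ℕ) := by
    have h1 := Nat.lt_mul_div_succ (n - 1) (show 0 < Q + 1 by omega)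
    have h2 : n ≤ (Q + 1) * ((n - 1) / (Q + 1) + 1) := by omega
    have h3 : (n : ℝ) ≤ ((Q : ℝ) + 1) * ((((n - 1) / (Q + 1) : ℕ) : ℝ) + 1) := by
      exact_mod_cast h2
    rw [sub_le_iff_le_add, div_le_iff₀ hQ1]
    linarith
  have hfr3 : ((n / (Q + 2) : ℕ) : ℝ) ≤ (n : ℝ) / (Q + 2) := by
    refine (Nat.cast_div_le).trans ?_
    push_cast
    exact le_refl _
  have hfr4 : (n : ℝ) / (Q + 2) - 1 ≤ ((n / (Q + 2) : ℕ) : ℝ) := by
    have h1 := Nat.lt_mul_div_succ n (show 0 < Q + 2 by omega)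
    have h3 : (n : ℝ) ≤ ((Q : ℝ) + 2) * (((n / (Q + 2) : ℕ) : ℝ) + 1) := by
      exact_mod_cast h1.le
    rw [sub_le_iff_le_add, div_le_iff₀ hQ2]
    linarith
  have hdiff : (n : ℝ) / (Q + 1) - (n : ℝ) / (Q + 2) = (n : ℝ) / ((Q + 1) * (Q + 2)) := by
    field_simp
    ring
  have hLlow : (n : ℝ) / ((Q + 1) * (Q + 2)) - 1 ≤ (L : ℝ) := by
    have h1 : (((n - 1) / (Q + 1) : ℕ) : ℝ) ≤ (L : ℝ) + ((n / (Q + 2) : ℕ) : ℝ) := by
      exact_mod_cast (show (n - 1) / (Q + 1) ≤ L + n / (Q + 2) by omega)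
    linarith
  have hLup : (L : ℝ) ≤ (n : ℝ) / ((Q + 1) * (Q + 2)) + 1 := by
    rcases le_total (n / (Q + 2)) ((n - 1) / (Q + 1)) with h | h
    · have h1 : (L : ℝ) + ((n / (Q + 2) : ℕ) : ℝ) = (((n - 1) / (Q + 1) : ℕ) : ℝ) := by
        exact_mod_cast (show L + n / (Q + 2) = (n - 1) / (Q + 1) by omega)
      linarith
    · have hL0 : L = 0 := by omega
      rw [hL0]
      push_cast
      positivity
  have hLa1 : ((L / a : ℕ) : ℝ) ≤ (L : ℝ) / a := Nat.cast_div_le
  have hLa2 : (L : ℝ) / a - 1 ≤ ((L / a : ℕ) : ℝ) := by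
    have h1 := Nat.lt_mul_div_succ L hapos
    have h3 : (L : ℝ) ≤ (a : ℝ) * (((L / a : ℕ) : ℝ) + 1) := by exact_mod_cast h1.le
    rw [sub_le_iff_le_add, div_le_iff₀ (by linarith)]
    linarith
  have hca1 : (c : ℝ) / a ≤ 1 := by
    rw [div_le_one (by linarith)]
    exact hcaR
  have hca0 : 0 ≤ (c : ℝ) / a := by positivity
  have key : (n : ℝ) * ((c : ℝ) / (a * ((Q + 1) * (Q + 2)))) =
      (c : ℝ) / a * ((n : ℝ) / ((Q + 1) * (Q + 2))) := by
    field_simp
  have hcLa : (c : ℝ) * ((L : ℝ) / a) = (c : ℝ) / a * L := by ring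
  constructor
  · have h1 : (c : ℝ) * ((L / a : ℕ) : ℝ) ≤ ((good j n Q).card : ℝ) := by exact_mod_cast hb.1
    rw [key]
    have h2 : (c : ℝ) * ((L : ℝ) / a - 1) ≤ (c : ℝ) * ((L / a : ℕ) : ℝ) :=
      mul_le_mul_of_nonneg_left hLa2 hcR
    have h3 : (c : ℝ) / a * ((n : ℝ) / ((Q + 1) * (Q + 2)) - 1) ≤ (c : ℝ) / a * L :=
      mul_le_mul_of_nonneg_left hLlow hca0
    have h4 : (c : ℝ) * ((L : ℝ) / a - 1) = (c : ℝ) / a * L - c := by rw [← hcLa]; ring
    nlinarith
  · have h1 : ((good j n Q).card : ℝ) ≤ (c : ℝ) * (((L / a : ℕ) : ℝ) + 1) := by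
      exact_mod_cast hb.2
    rw [key]
    have h2 : (c : ℝ) * (((L / a : ℕ) : ℝ) + 1) ≤ (c : ℝ) * ((L : ℝ) / a + 1) :=
      mul_le_mul_of_nonneg_left (by linarith) hcR
    have h3 : (c : ℝ) / a * L ≤ (c : ℝ) / a * ((n : ℝ) / ((Q + 1) * (Q + 2)) + 1) :=
      mul_le_mul_of_nonneg_left hLup hca0
    have h4 : (c : ℝ) * ((L : ℝ) / a + 1) = (c : ℝ) / a * L + c := by rw [← hcLa]; ring
    nlinarith

/-- The main term. -/
noncomputable def mainTerm (j K : ℕ) (v : ℤ) : ℝ :=
  ∑ Q ∈ range K, (u j Q v : ℝ) / (Q.factorial * ((Q + 1) * (Q + 2)))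

theorem good_subset (j n Q : ℕ) (hn : 1 ≤ n) : good j n Q ⊆ S n j := by
  classical
  intro r hr
  unfold good at hr
  rw [Finset.mem_filter, mem_block n Q r hn] at hr
  obtain ⟨⟨h1, h2⟩, h3⟩ := hr
  refine mem_S_of_reach n j Q r ?_ h1 h3
  rcases Nat.eq_zero_or_pos r with h0 | h0
  · rw [h0] at h2
    omega
  · exact h0

theorem good_disjoint (j n : ℕ) (hn : 1 ≤ n) (K : ℕ) :
    ((range K : Finset ℕ) : Set ℕ).PairwiseDisjoint (good j n) := by
  classical
  have key : ∀ Q Q' : ℕ, Q < Q' → Disjoint (good j n Q) (good j n Q') := by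
    intro Q Q' hlt
    rw [Finset.disjoint_left]
    intro r h1 h2
    unfold good at h1 h2
    rw [Finset.mem_filter, mem_block n _ r hn] at h1 h2
    have h3 : (Q + 2) * r ≤ (Q' + 1) * r := Nat.mul_le_mul_right r (by omega)
    omega
  intro Q _ Q' _ hne
  rcases lt_or_gt_of_ne hne with h | h
  · exact key Q Q' h
  · exact (key Q' Q h).symm

theorem sum_good_bounds (j K n : ℕ) (v : ℤ) (hn : 1 ≤ n)
    (hv : (K.factorial : ℤ) ∣ v - n) :
    (n : ℝ) * mainTerm j K v - 2 * K * K.factorial ≤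
      ∑ Q ∈ range K, ((good j n Q).card : ℝ) ∧
    ∑ Q ∈ range K, ((good j n Q).card : ℝ) ≤
      (n : ℝ) * mainTerm j K v + 2 * K * K.factorial := by
  have hdv : ∀ Q ∈ range K, (Q.factorial : ℤ) ∣ v - n := by
    intro Q hQ
    exact (Int.natCast_dvd_natCast.mpr
      (Nat.factorial_dvd_factorial (Finset.mem_range.mp hQ).le)).trans hv
  have hfac : ∀ Q ∈ range K, (Q.factorial : ℝ) ≤ K.factorial := by
    intro Q hQ
    exact_mod_cast Nat.factorial_le (Finset.mem_range.mp hQ).le
  have hconst : ∑ _Q ∈ range K, (2 * (K.factorial : ℝ)) = 2 * K * K.factorial := by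
    rw [Finset.sum_const, Finset.card_range, nsmul_eq_mul]
    ring
  constructor
  · rw [mainTerm, Finset.mul_sum, ← hconst, ← Finset.sum_sub_distrib]
    apply Finset.sum_le_sum
    intro Q hQ
    have h1 := (good_card j n Q v hn (hdv Q hQ)).1
    have h2 := hfac Q hQ
    linarith
  · rw [mainTerm, Finset.mul_sum, ← hconst, ← Finset.sum_add_distrib]
    apply Finset.sum_le_sum
    intro Q hQ
    have h1 := (good_card j n Q v hn (hdv Q hQ)).2
    have h2 := hfac Q hQ
    linarith

theorem lower (j K n : ℕ) (v : ℤ) (hn : 1 ≤ n) (hv : (K.factorial : ℤ) ∣ v - n) :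
    (n : ℝ) * mainTerm j K v - 2 * K * K.factorial ≤ ((S n j).card : ℝ) := by
  classical
  refine (sum_good_bounds j K n v hn hv).1.trans ?_
  have h1 : ((range K).biUnion (good j n)).card = ∑ Q ∈ range K, (good j n Q).card :=
    Finset.card_biUnion (good_disjoint j n hn K)
  have h2 : (range K).biUnion (good j n) ⊆ S n j := by
    rw [Finset.biUnion_subset]
    intro Q _
    exact good_subset j n Q hn
  have h3 := Finset.card_le_card h2
  rw [h1] at h3
  exact_mod_cast h3

theorem upper (j K n : ℕ) (v : ℤ) (hn : 1 ≤ n) (hv : (K.factorial : ℤ) ∣ v - n) :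
    ((S n j).card : ℝ) ≤ (n : ℝ) * mainTerm j K v + (n : ℝ) / (K + 1) +
      (2 * K * K.factorial + K + 2) := by
  classical
  have hsub : S n j ⊆ (({0} ∪ Icc 1 (n / (K + 1))) ∪ (range (K + 1)).image (fun q => n / q)) ∪
      (range K).biUnion (good j n) := by
    intro r hr
    simp only [Finset.mem_union, Finset.mem_singleton, Finset.mem_Icc, Finset.mem_image,
      Finset.mem_range, Finset.mem_biUnion]
    rcases Nat.eq_zero_or_pos r with h0 | h0
    · exact Or.inl (Or.inl (Or.inl h0))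
    by_cases hle : r ≤ n / (K + 1)
    · exact Or.inl (Or.inl (Or.inr ⟨h0, hle⟩))
    push Not at hle
    have hlt : n < r * (K + 1) := (Nat.div_lt_iff_lt_mul (by omega)).mp hle
    have hrn : r ≤ n := mem_S_le n j r hr
    have hq1 : 1 ≤ n / r := (Nat.one_le_div_iff h0).mpr hrn
    have hqK : n / r < K + 1 := (Nat.div_lt_iff_lt_mul h0).mpr (by rw [Nat.mul_comm]; exact hlt)
    have hqle : r * (n / r) ≤ n := Nat.mul_div_le n r
    have hqlt : n < r * (n / r + 1) := Nat.lt_mul_div_succ n h0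
    by_cases heq : r * (n / r) = n
    · refine Or.inl (Or.inr ⟨n / r, hqK, ?_⟩)
      have h3 := Nat.mul_div_cancel r (show 0 < n / r by omega)
      rw [heq] at h3
      exact h3
    · refine Or.inr ⟨n / r - 1, by omega, ?_⟩
      unfold good
      rw [Finset.mem_filter, mem_block n _ r hn]
      have e1 : n / r - 1 + 1 = n / r := by omega
      have e2 : n / r - 1 + 2 = n / r + 1 := by omega
      have hb2 : n < (n / r - 1 + 2) * r := by
        rw [e2, Nat.mul_comm]
        exact hqlt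
      refine ⟨⟨?_, hb2⟩, reach_of_mem_S n j _ r h0 hb2 hr⟩
      rw [e1, Nat.mul_comm]
      omega
  have h1 := Finset.card_le_card hsub
  have h2 := Finset.card_union_le (({0} ∪ Icc 1 (n / (K + 1))) ∪
    (range (K + 1)).image (fun q => n / q)) ((range K).biUnion (good j n))
  have h3 := Finset.card_union_le ({0} ∪ Icc 1 (n / (K + 1)))
    ((range (K + 1)).image (fun q => n / q))
  have h4 := Finset.card_union_le ({0} : Finset ℕ) (Icc 1 (n / (K + 1)))
  have h5 : ((range (K + 1)).image (fun q => n / q)).card ≤ K + 1 :=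
    Finset.card_image_le.trans (by simp)
  have h6 : (Icc 1 (n / (K + 1))).card = n / (K + 1) := by simp
  have h7 : ((range K).biUnion (good j n)).card = ∑ Q ∈ range K, (good j n Q).card :=
    Finset.card_biUnion (good_disjoint j n hn K)
  rw [Finset.card_singleton, h6] at h4
  rw [h7] at h2
  have h8 : (S n j).card ≤ n / (K + 1) + (K + 2) + ∑ Q ∈ range K, (good j n Q).card := by omega
  have h9 : ((S n j).card : ℝ) ≤ ((n / (K + 1) : ℕ) : ℝ) + (K + 2) +
      ∑ Q ∈ range K, ((good j n Q).card : ℝ) := by exact_mod_cast h8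
  have h10 := (sum_good_bounds j K n v hn hv).2
  have h11 : ((n / (K + 1) : ℕ) : ℝ) ≤ (n : ℝ) / (K + 1) := by
    refine (Nat.cast_div_le).trans ?_
    push_cast
    exact le_refl _
  linarith

theorem mainTerm_gap (j K : ℕ) (hj : 2 ≤ j) (hK : j + 2 < K) :
    mainTerm j K 0 + 1 / ((j + 2).factorial * (((j : ℝ) + 3) * (j + 4))) ≤ mainTerm j K 1 := by
  unfold mainTerm
  have hmem : j + 2 ∈ range K := Finset.mem_range.mpr hK
  rw [← Finset.add_sum_erase _ _ hmem,
    ← Finset.add_sum_erase (range K) (fun Q : ℕ => (u j Q 1 : ℝ) /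
      (Q.factorial * ((Q + 1) * (Q + 2)))) hmem]
  have h1 : ∑ Q ∈ (range K).erase (j + 2), (u j Q 0 : ℝ) / (Q.factorial * ((Q + 1) * (Q + 2))) ≤
      ∑ Q ∈ (range K).erase (j + 2), (u j Q 1 : ℝ) / (Q.factorial * ((Q + 1) * (Q + 2))) := by
    apply Finset.sum_le_sum
    intro Q _
    apply div_le_div_of_nonneg_right _ (by positivity)
    exact_mod_cast u_zero_le_one j Q
  have h2 : ((u j (j + 2) 0 : ℝ) + 1) / ((j + 2).factorial * (((j + 2 : ℕ) + 1) *
      ((j + 2 : ℕ) + 2))) ≤ (u j (j + 2) 1 : ℝ) / ((j + 2).factorial * (((j + 2 : ℕ) + 1) *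
      ((j + 2 : ℕ) + 2))) := by
    apply div_le_div_of_nonneg_right _ (by positivity)
    exact_mod_cast u_strict j hj
  have h3 : (1 : ℝ) / ((j + 2).factorial * (((j : ℝ) + 3) * (j + 4))) =
      1 / ((j + 2).factorial * (((j + 2 : ℕ) + 1) * ((j + 2 : ℕ) + 2))) := by
    push_cast
    congr 2
    ring
  rw [h3]
  rw [add_div] at h2
  linarith

theorem card_S_le (n j : ℕ) : (S n j).card ≤ n + 1 := by
  have h : S n j ⊆ range (n + 1) := by
    intro r hr
    rw [Finset.mem_range]
    have := mem_S_le n j r hr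
    omega
  exact (Finset.card_le_card h).trans (by simp)

theorem ratio_bounds (n j : ℕ) :
    0 ≤ ((S n j).card : ℝ) / n ∧ ((S n j).card : ℝ) / n ≤ 2 := by
  refine ⟨by positivity, ?_⟩
  rcases Nat.eq_zero_or_pos n with rfl | hn
  · simp
  · have hnR : (1 : ℝ) ≤ (n : ℝ) := by exact_mod_cast hn
    rw [div_le_iff₀ (by linarith)]
    have : ((S n j).card : ℝ) ≤ (n : ℝ) + 1 := by exact_mod_cast card_S_le n j
    linarith

/-- For every `j ≥ 2` the sequence `s_j(n)/n` does not converge: its lower limit is smaller than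
its upper limit, and it does not tend to any real number. -/
theorem result (j : ℕ) (hj : 2 ≤ j) :
    liminf (fun n : ℕ => ((S n j).card : ℝ) / n) atTop <
      limsup (fun n : ℕ => ((S n j).card : ℝ) / n) atTop ∧
    ¬ ∃ L : ℝ, Tendsto (fun n : ℕ => ((S n j).card : ℝ) / n) atTop (𝓝 L) := by
  set δ : ℝ := 1 / ((j + 2).factorial * (((j : ℝ) + 3) * (j + 4))) with hδ
  have hδpos : 0 < δ := by positivity
  obtain ⟨K0, hK0⟩ := exists_nat_gt (4 / δ)
  set K : ℕ := max K0 (j + 3) with hK
  have hKj : j + 2 < K := by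
    have := le_max_right K0 (j + 3)
    omega
  have hK4 : 1 / ((K : ℝ) + 1) ≤ δ / 4 := by
    have h1 : (K0 : ℝ) ≤ K := by exact_mod_cast le_max_left K0 (j + 3)
    have h2 : 4 / δ < (K : ℝ) + 1 := by linarith
    rw [div_lt_iff₀ hδpos] at h2
    rw [div_le_iff₀ (by positivity)]
    linarith
  set C : ℝ := 2 * K * K.factorial + K + 2 with hC
  have hCpos : 0 < C := by positivity
  set M0 : ℝ := mainTerm j K 0 with hM0
  have hgap : M0 + δ ≤ mainTerm j K 1 := mainTerm_gap j K hj hKj
  have hfreq1 : ∃ᶠ n : ℕ in atTop, ((S n j).card : ℝ) / n ≤ M0 + δ / 2 := by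
    rw [frequently_atTop]
    intro N
    obtain ⟨M1, hM1⟩ := exists_nat_gt (4 * C / δ)
    set M := max (max N M1) 1 with hM
    have hM1' : M1 ≤ M := (le_max_right N M1).trans (le_max_left _ _)
    have hN' : N ≤ M := (le_max_left N M1).trans (le_max_left _ _)
    have h1' : 1 ≤ M := le_max_right _ _
    have hfac : 1 ≤ K.factorial := Nat.factorial_pos K
    have hMn : M ≤ K.factorial * M := Nat.le_mul_of_pos_left M hfac
    refine ⟨K.factorial * M, hN'.trans hMn, ?_⟩
    set n := K.factorial * M with hn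
    have hn1 : 1 ≤ n := h1'.trans hMn
    have hnR : (0 : ℝ) < (n : ℝ) := by exact_mod_cast hn1
    have hup := upper j K n 0 hn1 (by
      rw [zero_sub, dvd_neg, hn]
      push_cast
      exact dvd_mul_right _ _)
    have hCn : C ≤ (n : ℝ) * (δ / 4) := by
      have h3 : (M1 : ℝ) ≤ n := by exact_mod_cast hM1'.trans hMn
      have h4 : 4 * C / δ < n := lt_of_lt_of_le hM1 h3
      rw [div_lt_iff₀ hδpos] at h4
      linarith
    have h5 : (n : ℝ) / (K + 1) ≤ (n : ℝ) * (δ / 4) := by
      rw [div_eq_mul_one_div]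
      exact mul_le_mul_of_nonneg_left hK4 hnR.le
    rw [div_le_iff₀ hnR]
    have h6 : (M0 + δ / 2) * (n : ℝ) = (n : ℝ) * M0 + (n : ℝ) * (δ / 4) + (n : ℝ) * (δ / 4) := by
      ring
    rw [h6]
    linarith
  have hfreq2 : ∃ᶠ n : ℕ in atTop, M0 + 3 * δ / 4 ≤ ((S n j).card : ℝ) / n := by
    rw [frequently_atTop]
    intro N
    obtain ⟨M1, hM1⟩ := exists_nat_gt (4 * C / δ)
    set M := max (max N M1) 1 with hM
    have hM1' : M1 ≤ M := (le_max_right N M1).trans (le_max_left _ _)
    have hN' : N ≤ M := (le_max_left N M1).trans (le_max_left _ _)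
    have hfac : 1 ≤ K.factorial := Nat.factorial_pos K
    have hMn : M ≤ K.factorial * M + 1 :=
      (Nat.le_mul_of_pos_left M hfac).trans (Nat.le_succ _)
    refine ⟨K.factorial * M + 1, hN'.trans hMn, ?_⟩
    set n := K.factorial * M + 1 with hn
    have hn1 : 1 ≤ n := by omega
    have hnR : (0 : ℝ) < (n : ℝ) := by exact_mod_cast hn1
    have hlow := lower j K n 1 hn1 (by
      refine ⟨-(M : ℤ), ?_⟩
      rw [hn]
      push_cast
      ring)
    have hCn : C ≤ (n : ℝ) * (δ / 4) := by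
      have h3 : (M1 : ℝ) ≤ n := by exact_mod_cast hM1'.trans hMn
      have h4 : 4 * C / δ < n := lt_of_lt_of_le hM1 h3
      rw [div_lt_iff₀ hδpos] at h4
      linarith
    have hC2 : 2 * (K : ℝ) * K.factorial ≤ C := by
      rw [hC]
      have : (0 : ℝ) ≤ (K : ℝ) := by positivity
      linarith
    have h7 : (n : ℝ) * (M0 + δ) ≤ (n : ℝ) * mainTerm j K 1 :=
      mul_le_mul_of_nonneg_left hgap hnR.le
    rw [le_div_iff₀ hnR]
    have h6 : (M0 + 3 * δ / 4) * (n : ℝ) = (n : ℝ) * (M0 + δ) - (n : ℝ) * (δ / 4) := by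
      ring
    rw [h6]
    linarith
  have hbelow : IsBoundedUnder (· ≥ ·) atTop (fun n : ℕ => ((S n j).card : ℝ) / n) :=
    isBoundedUnder_of ⟨0, fun n => (ratio_bounds n j).1⟩
  have habove : IsBoundedUnder (· ≤ ·) atTop (fun n : ℕ => ((S n j).card : ℝ) / n) :=
    isBoundedUnder_of ⟨2, fun n => (ratio_bounds n j).2⟩
  have hinf := liminf_le_of_frequently_le hfreq1 hbelow
  have hsup := le_limsup_of_frequently_le hfreq2 habove
  have hlt : liminf (fun n : ℕ => ((S n j).card : ℝ) / n) atTop <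
      limsup (fun n : ℕ => ((S n j).card : ℝ) / n) atTop := by linarith
  refine ⟨hlt, ?_⟩
  rintro ⟨L, hL⟩
  rw [hL.liminf_eq, hL.limsup_eq] at hlt
  exact lt_irrefl _ hlt

end Pool.Agent.Results.MP_376bf0_nt.NoLimit
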